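import Pool.Agent.Q151.Cov.Main

/-!
# MP_7fa642_al: semigroup versus subgroup covering numbers of groups
-/

set_option autoImplicit false

namespace Pool.Agent.Results.MP_7fa642_al.NoSubgroupCover

open Pool.Agent.Q151.Cov
open scoped Pointwise

/-- the semigroup covering number of `G`: the least number of proper (nonempty) subsemigroups
whose union is `G`, and `⊤` if there is no such finite family -/
noncomputable def sigmaS (G : Type) [Group G] : ℕ∞ :=
  sInf {n : ℕ∞ | ∃ k : ℕ, n = k ∧ ∃ S : Fin k → Subsemigroup G,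
    (∀ i, (S i : Set G).Nonempty ∧ S i ≠ ⊤) ∧ ∀ g : G, ∃ i, g ∈ S i}

/-- the subgroup covering number of `G`: the least number of proper subgroups whose union is `G`,
and `⊤` if there is no such finite family -/
noncomputable def sigmaG (G : Type) [Group G] : ℕ∞ :=
  sInf {n : ℕ∞ | ∃ k : ℕ, n = k ∧ ∃ H : Fin k → Subgroup G,
    (∀ i, H i ≠ ⊤) ∧ ∀ g : G, ∃ i, g ∈ H i}

/-- (1) There is a group `G` with `3 ≤ σ_s(G) ≤ 6` and `σ_g(G) = ∞` (it has no proper subgroup of
finite index).  (2) So it is not true that every group `G` has `σ_s(G) = 2` or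
`σ_s(G) = σ_g(G)`. -/
theorem result :
    (∃ (G : Type) (_ : Group G), 3 ≤ sigmaS G ∧ sigmaS G ≤ 6 ∧ sigmaG G = ⊤ ∧
      ∀ H : Subgroup G, H.FiniteIndex → H = ⊤) ∧
    ¬ ∀ (G : Type) (_ : Group G), sigmaS G = 2 ∨ sigmaS G = sigmaG G := by
  have main : 3 ≤ sigmaS GG ∧ sigmaS GG ≤ 6 ∧ sigmaG GG = ⊤ ∧
      ∀ H : Subgroup GG, H.FiniteIndex → H = ⊤ := by
    refine ⟨?_, ?_, ?_, fun H _ => finiteIndex_top H⟩
    · refine le_sInf ?_
      rintro _ ⟨k, rfl, S, hS, hc⟩
      match k, S, hS, hc with
      | 0, S, _, hc =>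
        obtain ⟨i, _⟩ := hc 1
        exact i.elim0
      | 1, S, hS, hc =>
        exfalso
        apply (hS 0).2
        rw [eq_top_iff]
        intro g _
        obtain ⟨i, hi⟩ := hc g
        rwa [Subsingleton.elim i 0] at hi
      | 2, S, hS, hc =>
        exfalso
        refine two_cover (hS 0).2 (hS 1).2 fun g => ?_
        obtain ⟨i, hi⟩ := hc g
        fin_cases i
        · exact Or.inl hi
        · exact Or.inr hi
      | k + 3, _, _, _ =>
        push_cast
        exact le_add_self
    · refine sInf_le ⟨6, rfl, fun j => S6 (finProdFinEquiv.symm j), fun j => ⟨⟨1, S6_one _⟩,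
        S6_proper _⟩, fun g => ?_⟩
      obtain ⟨j, hj⟩ := S6_cover g
      exact ⟨finProdFinEquiv j, by simpa using hj⟩
    · unfold sigmaG
      rw [sInf_eq_top]
      rintro _ ⟨k, rfl, H, hH, hc⟩
      exfalso
      have hcov : ⋃ i ∈ (Finset.univ : Finset (Fin k)), (1 : GG) • (H i : Set GG) = Set.univ := by
        rw [Set.eq_univ_iff_forall]
        intro g
        obtain ⟨i, hi⟩ := hc g
        simp only [Finset.mem_univ, Set.iUnion_true, one_smul, Set.mem_iUnion]
        exact ⟨i, hi⟩
      obtain ⟨i, -, hi⟩ := Subgroup.exists_finiteIndex_of_leftCoset_cover hcov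
      exact hH i (finiteIndex_top (H i))
  refine ⟨⟨GG, inferInstance, main⟩, fun hall => ?_⟩
  obtain ⟨h3, h6, htop, -⟩ := main
  rcases hall GG inferInstance with h | h
  · rw [h] at h3
    exact absurd h3 (by decide)
  · rw [h, htop] at h6
    exact absurd h6 (by decide)

end Pool.Agent.Results.MP_7fa642_al.NoSubgroupCover
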